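import Mathlib
import Pool.Agent.Helper547.Diestel.Conv

set_option autoImplicit false

open MeasureTheory TopologicalSpace
open scoped ENNReal

universe u

namespace Pool.Agent.Results.MP_19fa38_an.HilbertianOnly

/-- The Lebesgue-Bochner space `L²([0,1],X)` (Lebesgue measure on `[0,1]`). -/
abbrev L2I (X : Type u) [NormedAddCommGroup X] : Type u :=
  Lp X 2 (volume.restrict (Set.Icc (0 : ℝ) 1))

/-- The space `ℓ²(X)` of square summable sequences in `X`. -/
abbrev Ell2 (X : Type u) [NormedAddCommGroup X] : Type u := lp (fun _ : ℕ => X) 2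

/-- `A` is isomorphic to a subspace of `B`: there is a bounded linear map `A → B` which is bounded
below. -/
def EmbedsIn (A B : Type*) [NormedAddCommGroup A] [NormedSpace ℝ A] [NormedAddCommGroup B]
    [NormedSpace ℝ B] : Prop :=
  ∃ T : A →L[ℝ] B, ∃ c : ℝ, 0 < c ∧ ∀ a, c * ‖a‖ ≤ ‖T a‖

/-- `X` contains an isomorphic copy of the scalar Hilbert space `ℓ²`. -/
def ContainsHilbert (X : Type u) [NormedAddCommGroup X] [NormedSpace ℝ X] : Prop :=
  EmbedsIn (lp (fun _ : ℕ => ℝ) 2) X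

/-- `X` is isomorphic to a Hilbert space (possibly finite dimensional). -/
def IsHilbertian (X : Type u) [NormedAddCommGroup X] [NormedSpace ℝ X] : Prop :=
  ∃ (H : Type u) (_ : NormedAddCommGroup H) (_ : InnerProductSpace ℝ H),
    CompleteSpace H ∧ Nonempty (X ≃L[ℝ] H)

/-- `X` is isomorphic to a subspace of `(∑ Y_i)_2 ⊕ K`, where no `Y_i` contains an isomorphic copy
of `ℓ²` and `K` is a Hilbert space. -/
def InClass (X : Type u) [NormedAddCommGroup X] [NormedSpace ℝ X] : Prop :=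
  ∃ (I : Type u) (Y : I → Type u) (_ : ∀ i, NormedAddCommGroup (Y i))
    (_ : ∀ i, NormedSpace ℝ (Y i)) (K : Type u) (_ : NormedAddCommGroup K)
    (_ : InnerProductSpace ℝ K) (_ : CompleteSpace K),
    (∀ i, ¬ ContainsHilbert (Y i)) ∧ EmbedsIn X (lp Y 2 × K)

open Pool.Agent.Helper547.Diestel

lemma hilbertian_of_embedsIn (X : Type u) [NormedAddCommGroup X] [NormedSpace ℝ X]
    [CompleteSpace X] [SeparableSpace X] (hX : InClass X) (hT : EmbedsIn (L2I X) (Ell2 X)) :
    IsHilbertian X := by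
  obtain ⟨I, Y, i1, i2, K, i3, i4, i5, hY, J, b, hb, hJ⟩ := hX
  obtain ⟨T, a, ha, hT⟩ := hT
  have : SecondCountableTopology X := UniformSpace.secondCountable_of_separable X
  obtain ⟨E⟩ := exists_emb J b hb hJ T a ha hT
  obtain ⟨L, c, hL, hc⟩ := core_of_emb (Y := fun p : ℕ × I => Y p.2) (fun p => hY p.2) E
  exact hilb_of_core L (by linarith) c hc

lemma embedsIn_of_iso (X : Type u) [NormedAddCommGroup X] [NormedSpace ℝ X]
    (h : Nonempty (Ell2 X ≃L[ℝ] L2I X)) : EmbedsIn (L2I X) (Ell2 X) := by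
  obtain ⟨e⟩ := h
  refine ⟨(e.symm : L2I X →L[ℝ] Ell2 X), (‖(e : Ell2 X →L[ℝ] L2I X)‖ + 1)⁻¹, by positivity,
    fun f => ?_⟩
  rw [inv_mul_le_iff₀ (by positivity)]
  have h1 := (e : Ell2 X →L[ℝ] L2I X).le_opNorm (e.symm f)
  have h2 : (e : Ell2 X →L[ℝ] L2I X) (e.symm f) = f := e.apply_symm_apply f
  rw [h2] at h1
  refine h1.trans ?_
  have h3 : 0 ≤ ‖e.symm f‖ := norm_nonneg _
  show _ ≤ (‖(e : Ell2 X →L[ℝ] L2I X)‖ + 1) * ‖e.symm f‖
  nlinarith

lemma inClass_of_not_containsHilbert (X : Type u) [NormedAddCommGroup X] [NormedSpace ℝ X]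
    (h : ¬ ContainsHilbert X) : InClass X := by
  refine ⟨PUnit, fun _ => X, fun _ => inferInstance, fun _ => inferInstance,
    lp (fun _ : PUnit.{u + 1} => ℝ) 2, inferInstance, inferInstance, inferInstance, fun _ => h, ?_⟩
  let J : X →L[ℝ] (lp (fun _ : PUnit.{u + 1} => X) 2 × lp (fun _ : PUnit.{u + 1} => ℝ) 2) :=
    (lp.singleContinuousLinearMap ℝ (fun _ : PUnit.{u + 1} => X) 2 PUnit.unit).prod 0
  refine ⟨J, 1, one_pos, fun x => ?_⟩
  rw [one_mul]
  have h1 : ‖(lp.single 2 PUnit.unit x : lp (fun _ : PUnit.{u + 1} => X) 2)‖ = ‖x‖ :=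
    lp.norm_single (by norm_num) _ _
  have h2 : ‖(J x).1‖ ≤ ‖J x‖ := norm_fst_le (J x)
  have h3 : (J x).1 = lp.single 2 PUnit.unit x := rfl
  rw [h3, h1] at h2
  exact h2

/-- Let `X` be a separable Banach space which contains no isomorphic copy of `ℓ²` or, more
generally, is isomorphic to a subspace of `(∑ Y_i)_2 ⊕ K` with no `Y_i` containing `ℓ²` and `K`
Hilbert. Then `ℓ²(X)` and `L²([0,1],X)` are isomorphic if and only if `X` is isomorphic to a
Hilbert space; and this already holds as soon as `L²([0,1],X)` embeds isomorphically into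
`ℓ²(X)`. -/
theorem result (X : Type u) [NormedAddCommGroup X] [NormedSpace ℝ X] [CompleteSpace X]
    [SeparableSpace X] (hX' : ¬ ContainsHilbert X ∨ InClass X) :
    (Nonempty (Ell2 X ≃L[ℝ] L2I X) ↔ IsHilbertian X) ∧
      (EmbedsIn (L2I X) (Ell2 X) ↔ IsHilbertian X) := by
  have hX : InClass X := hX'.elim (inClass_of_not_containsHilbert X) id
  have h1 : IsHilbertian X → Nonempty (Ell2 X ≃L[ℝ] L2I X) := by
    rintro ⟨H, i1, i2, i3, ⟨e⟩⟩
    exact iso_of_hilbert e
  exact ⟨⟨fun h => hilbertian_of_embedsIn X hX (embedsIn_of_iso X h), h1⟩,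
    ⟨hilbertian_of_embedsIn X hX, fun h => embedsIn_of_iso X (h1 h)⟩⟩

end Pool.Agent.Results.MP_19fa38_an.HilbertianOnly
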